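import Mathlib

/-!
MP_fcb106_co (polynomial upper bound): the minimax lemma for finitely many convex functions.
-/

set_option autoImplicit false
noncomputable section
namespace Pool.Agent.Helper26.DW

open Finset

/-- **MINIMAX** for finitely many convex functions on a convex set -/
theorem minimax {E : Type*} [AddCommGroup E] [Module ℝ E] {ι : Type*} [Fintype ι]
    {Z : Set E} (hZ : Convex ℝ Z) (hne : Z.Nonempty) {φ : ι → E → ℝ}
    (hφ : ∀ i, ConvexOn ℝ Z (φ i)) {β β' : ℝ} (hβ : β < β')
    (H : ∀ θ : ι → ℝ, (∀ i, 0 ≤ θ i) → ∑ i, θ i = 1 → ∃ z ∈ Z, ∑ i, θ i * φ i z ≤ β) :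
    ∃ z ∈ Z, ∀ i, φ i z < β' := by
  classical
  by_contra hcon
  push Not at hcon
  set S : Set (ι → ℝ) := {t | ∃ z ∈ Z, ∀ i, φ i z < t i} with hS
  have hSc : Convex ℝ S := by
    rintro t ⟨z, hz, ht⟩ u ⟨y, hy, hu⟩ a b ha hb hab
    refine ⟨a • z + b • y, hZ hz hy ha hb hab, fun i => ?_⟩
    have h1 := (hφ i).2 hz hy ha hb hab
    refine lt_of_le_of_lt h1 ?_
    simp only [Pi.add_apply, Pi.smul_apply, smul_eq_mul]
    rcases ha.eq_or_lt with rfl | ha'
    · have hb1 : b = 1 := by linarith
      subst hb1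
      simpa using hu i
    · nlinarith [mul_lt_mul_of_pos_left (ht i) ha', mul_le_mul_of_nonneg_left (hu i).le hb]
  have hSo : IsOpen S := by
    have : S = ⋃ z ∈ Z, {t : ι → ℝ | ∀ i, φ i z < t i} := by
      ext t; simp [hS]
    rw [this]
    refine isOpen_biUnion fun z _ => ?_
    have : {t : ι → ℝ | ∀ i, φ i z < t i} = ⋂ i, {t : ι → ℝ | φ i z < t i} := by
      ext t; simp
    rw [this]
    exact isOpen_iInter_of_finite fun i => isOpen_lt continuous_const (continuous_apply i)
  have hx : (fun _ : ι => β') ∉ S := by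
    rintro ⟨z, hz, h⟩
    obtain ⟨i, hi⟩ := hcon z hz
    exact absurd (h i) (not_lt.2 hi)
  obtain ⟨f, hf⟩ := geometric_hahn_banach_open_point hSc hSo hx
  set θ : ι → ℝ := fun i => - f (Pi.single i 1) with hθ
  have hfs : ∀ t : ι → ℝ, f t = - ∑ i, θ i * t i := by
    intro t
    have h1 : t = ∑ i, t i • (Pi.single i (1 : ℝ) : ι → ℝ) := by
      ext j
      simp [Finset.sum_apply, Pi.single_apply]
    conv_lhs => rw [h1]
    rw [map_sum, ← Finset.sum_neg_distrib]
    refine Finset.sum_congr rfl fun i _ => ?_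
    rw [map_smul, smul_eq_mul, hθ]
    ring
  obtain ⟨z0, hz0⟩ := hne
  have hup : ∀ i, 0 ≤ θ i := by
    intro i
    by_contra hneg
    push Not at hneg
    -- move far in the direction i
    set t0 : ι → ℝ := fun j => φ j z0 + 1 with ht0
    have hK : ∀ K : ℝ, 0 ≤ K → f t0 - θ i * K < f (fun _ => β') := by
      intro K hK
      have hmem : t0 + K • (Pi.single i (1 : ℝ) : ι → ℝ) ∈ S := by
        refine ⟨z0, hz0, fun j => ?_⟩
        simp only [Pi.add_apply, Pi.smul_apply, smul_eq_mul, ht0]
        by_cases hij : j = i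
        · subst hij; simp; linarith
        · simp [hij]
      have := hf _ hmem
      rw [map_add, map_smul, smul_eq_mul] at this
      have h2 : f (Pi.single i 1) = - θ i := by rw [hθ]; ring
      rw [h2] at this
      linarith
    set c : ℝ := f (fun _ => β') - f t0 with hc
    have hpos : 0 < -θ i := by linarith
    have h1 := hK (|c| / (-θ i)) (by positivity)
    have h2 : -θ i * (|c| / (-θ i)) = |c| := mul_div_cancel₀ _ hpos.ne'
    have h3 : c ≤ |c| := le_abs_self c
    nlinarith
  set s : ℝ := ∑ i, θ i with hs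
  have hs0 : 0 ≤ s := Finset.sum_nonneg fun i _ => hup i
  have hkey : ∀ z ∈ Z, β' * s ≤ ∑ i, θ i * φ i z := by
    intro z hz
    refine le_of_forall_pos_lt_add fun ε hε => ?_
    set δ : ℝ := ε / (s + 1) with hδ
    have hδ0 : 0 < δ := by positivity
    have hmem : (fun i => φ i z + δ) ∈ S := ⟨z, hz, fun i => by linarith⟩
    have h := hf _ hmem
    rw [hfs, hfs] at h
    have e1 : ∑ i, θ i * β' = β' * s := by rw [hs, Finset.mul_sum]; exact Finset.sum_congr rfl fun i _ => by ring
    have e2 : ∑ i, θ i * (φ i z + δ) = ∑ i, θ i * φ i z + δ * s := by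
      rw [hs, Finset.mul_sum, ← Finset.sum_add_distrib]
      exact Finset.sum_congr rfl fun i _ => by ring
    rw [e1, e2] at h
    have h4 : δ * s ≤ ε := by
      have : δ * (s + 1) = ε := by rw [hδ]; field_simp
      nlinarith
    linarith
  have hs1 : 0 < s := by
    rcases hs0.eq_or_lt with h0 | h0
    · exfalso
      have hz : ∀ i, θ i = 0 := fun i =>
        le_antisymm (by
          have := Finset.single_le_sum (f := θ) (fun j _ => hup j) (Finset.mem_univ i)
          linarith) (hup i)
      have hmem : (fun i => φ i z0 + 1) ∈ S := ⟨z0, hz0, fun i => by linarith⟩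
      have h := hf _ hmem
      rw [hfs, hfs] at h
      simp [hz] at h
    · exact h0
  obtain ⟨z, hz, hzle⟩ := H (fun i => θ i / s) (fun i => div_nonneg (hup i) hs0) (by
    rw [← Finset.sum_div]; exact div_self hs1.ne')
  have h5 := hkey z hz
  have h6 : ∑ i, θ i / s * φ i z = (∑ i, θ i * φ i z) / s := by
    rw [Finset.sum_div]; exact Finset.sum_congr rfl fun i _ => by ring
  rw [h6, div_le_iff₀ hs1] at hzle
  nlinarith

end Pool.Agent.Helper26.DW
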